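import Pool.Agent.H579R2.Spt.Main2
import Pool.Agent.H579R2.Spt.VV3
import Pool.Agent.H656R2.AK.TQPoly
import Pool.Agent.H656R2.AK.GameIn

/-!
# Definitions: arithmetization of quantified formulas modulo a prime, and the levelwise algorithm
-/

namespace Pool.Agent.H573R2.PSp

open Pool.Agent.NPC Pool.Agent.H579R2.Spt Pool.Agent.H656R2.AK

/-- An operation `(kind, variable, clause)` on functions of an assignment: kind `0` is a universal
quantifier, kind `1` an existential quantifier, kind `2` linearisation in the variable, and kind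
`≥ 3` is multiplication by the value of the clause. -/
abbrev Op := ℕ × ℕ × List (Bool × ℕ)

/-! ### Over a commutative ring -/

section Ring

variable {F : Type} [CommRing F]

/-- The factor of the variable `i` in the arithmetization of the negation of the clause `C`. -/
def nlF (C : List (Bool × ℕ)) (a : List F) (i : ℕ) : F :=
  (if (true, i) ∈ C then 1 - a.getD i 0 else 1) * (if (false, i) ∈ C then a.getD i 0 else 1)

/-- The arithmetization of the clause `C`, of degree at most two in each variable. -/
def clF (C : List (Bool × ℕ)) (a : List F) : F :=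
  1 - ((List.range a.length).map (fun i => nlF C a i)).prod

/-- The value of an operation of kind `< 3` at a point with coordinate `x`, in terms of the values
`y0`, `y1` at the points with the coordinate replaced by `0`, `1`. -/
def combF (k : ℕ) (x y0 y1 : F) : F :=
  if k = 0 then y0 * y1 else if k = 1 then y0 + y1 - y0 * y1 else (1 - x) * y0 + x * y1

/-- The composition of a list of operations, applied to the constant function `1`. -/
def evF : List Op → List F → F
  | [], _ => 1
  | o :: s, a => if o.1 < 3 then
      combF o.1 (a.getD o.2.1 0) (evF s (a.set o.2.1 0)) (evF s (a.set o.2.1 1))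
    else clF o.2.2 a * evF s a

/-- `h` is a polynomial of degree at most `d` in the variable `v`, on assignments of length `m`. -/
def DegLe (m : ℕ) (h : List F → F) (v d : ℕ) : Prop :=
  ∀ a : List F, a.length = m → ∃ q : Polynomial F, q.natDegree ≤ d ∧ ∀ t, h (a.set v t) = q.eval t

/-- Every operation of kind `< 3` is applied to a function of degree at most three in the variable
of the operation. -/
def GoodO (F : Type) [CommRing F] (m : ℕ) : List Op → Prop
  | [] => True
  | o :: s => (o.1 < 3 → DegLe (F := F) m (evF s) o.2.1 3) ∧ GoodO F m s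

end Ring

/-! ### Modulo `p`, with natural numbers -/

/-- `nlF` modulo `p`. -/
def nlN (p : ℕ) (C : List (Bool × ℕ)) (a : List ℕ) (i : ℕ) : ℕ :=
  (if (true, i) ∈ C then p + 1 - a.getD i 0 % p else 1) * (if (false, i) ∈ C then a.getD i 0 else 1)

/-- `clF` modulo `p`. -/
def clN (p : ℕ) (C : List (Bool × ℕ)) (a : List ℕ) : ℕ :=
  (p + 1 - (List.range a.length).foldr (fun i s => (nlN p C a i * s) % p) (1 % p)) % p

/-- `combF` modulo `p`. -/
def combN (p k x y0 y1 : ℕ) : ℕ :=
  if k = 0 then (y0 * y1) % p else if k = 1 then (y0 + y1 + (p - (y0 * y1) % p)) % p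
    else ((p + 1 - x % p) * y0 + x * y1) % p

/-- `evF` modulo `p`. -/
def evN (p : ℕ) : List Op → List ℕ → ℕ
  | [], _ => 1 % p
  | o :: s, a => if o.1 < 3 then
      combN p o.1 (a.getD o.2.1 0) (evN p s (a.set o.2.1 0)) (evN p s (a.set o.2.1 1))
    else (clN p o.2.2 a * evN p s a) % p

/-- The instances `(p, operations, assignment, ρ)` of the problem `BP`. -/
abbrev Ins := ℕ × List Op × List ℕ × ℕ

/-- The parity of the bitwise product of `ρ` and the value modulo `p` is odd. -/
def BP (q : Ins) : Prop := 0 < q.1 ∧ par q.2.2.2 (evN q.1 q.2.1 q.2.2.1) = true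

/-! ### The operations of a formula -/

/-- Linearisation in all variables. -/
def linA (m : ℕ) : List Op := (List.range m).map (fun i => (2, i, []))

/-- The operations of the matrix. -/
def opsC (m : ℕ) (Cs : List (List (Bool × ℕ))) : List Op := Cs.flatMap (fun C => (3, 0, C) :: linA m)

/-- The operations of the quantifier prefix. -/
def opsQ (m : ℕ) (l : List (Bool × ℕ)) : List Op :=
  l.flatMap (fun q => ((if q.1 then 0 else 1), q.2, []) :: linA m)

/-- The operations of a quantified formula. -/
def opsOf (f : QF) : List Op := opsQ f.1.length f.1.zipIdx ++ opsC f.1.length f.2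

/-! ### Candidates -/

/-- The coefficients of a polynomial of degree at most three. -/
abbrev Cf := ℕ × ℕ × ℕ × ℕ

/-- The value at `t` of the polynomial with coefficients `g`, modulo `p`. -/
def evG (p : ℕ) (g : Cf) (t : ℕ) : ℕ := (g.1 + t * (g.2.1 + t * (g.2.2.1 + t * g.2.2.2))) % p

/-- All coefficient vectors modulo `p`. -/
def all4 (p : ℕ) : List Cf :=
  List.range p ×ˢ List.range p ×ˢ List.range p ×ˢ List.range p

/-- The label of a polynomial for the test `(t, ρ)`. -/
def labG (p : ℕ) (t : ℕ × ℕ) (g : Cf) : Bool := par t.2 (evG p g t.1)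

variable {Φ : Type} [DecidableEq Φ]

/-- The system expressing that the labels are those of the polynomial `g`. -/
def sysG (row : ℕ × ℕ → List (ℤ × Φ)) (P T : ℕ) (g : Cf) : List (List (ℤ × Φ)) :=
  (tests P T).map (fun t => sc (labG P t g) (row t))

/-- The polynomials whose system is solved by the perceptron in `n` steps. -/
def candG (row : ℕ × ℕ → List (ℤ × Φ)) (P T n : ℕ) : List Cf :=
  (all4 P).filter (fun g => ok (sysG row P T g) n)

/-- The true polynomial `g` has positive or negative rows according to its labels. -/
structure GoodRow (row : ℕ × ℕ → List (ℤ × Φ)) (P T : ℕ) (g : Cf) (z : Φ → ℤ) (R Z : ℤ) :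
    Prop where
  h1 : ∀ t ∈ Finset.range P ×ˢ Finset.range T, labG P t g = true → 1 ≤ ev z (row t)
  h2 : ∀ t ∈ Finset.range P ×ˢ Finset.range T, labG P t g = false → ev z (row t) ≤ -1
  hR0 : 0 ≤ R
  hR : ∀ t ∈ Finset.range P ×ˢ Finset.range T, dot (row t) (row t) ≤ R
  hZ : ∀ Ω : Finset Φ, (∀ Q ∈ Ω, ∃ t ∈ Finset.range P ×ˢ Finset.range T, ∃ a ∈ row t, a.2 = Q) →
    ∑ Q ∈ Ω, z Q * z Q ≤ Z

/-- A point at which all different candidates differ. -/
def sepG (P : ℕ) (l : List Cf) : ℕ :=
  (((List.range P).filter (fun r => l.all (fun g => l.all (fun g' =>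
    decide (g = g') || !decide (evG P g r = evG P g' r))))).head?).getD 0

/-- The candidate with value `v` at `r`. -/
def pickG (P : ℕ) (l : List Cf) (r v : ℕ) : Cf :=
  ((l.filter (fun g => decide (evG P g r = v))).head?).getD (0, 0, 0, 0)

/-! ### The algorithm -/

/-- A frame of the forward pass: operation, assignment, candidates, point. -/
abbrev Frame := Op × List ℕ × List Cf × ℕ

/-- The state of the forward pass: remaining operations, current assignment, frames. -/
abbrev St := List Op × List ℕ × List Frame

/-- One step of the forward pass for an operation `o` with the remaining operations `s`. -/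
def fwd1 (P : ℕ) (cand : List Op × List ℕ × ℕ → List Cf) (o : Op) (s : List Op) (a : List ℕ)
    (fr : List Frame) : St :=
  if o.1 < 3 then (s, a.set o.2.1 (sepG P (cand (s, a, o.2.1))),
      (o, a, cand (s, a, o.2.1), sepG P (cand (s, a, o.2.1))) :: fr)
    else (s, a, (o, a, [], 0) :: fr)

/-- One step of the forward pass. -/
def fwd (P : ℕ) (cand : List Op × List ℕ × ℕ → List Cf) (x : St) : St :=
  (x.1.head?).elim x (fun o => fwd1 P cand o x.1.tail x.2.1 x.2.2)

/-- One step of the backward pass. -/
def bwd (P : ℕ) (v : ℕ) (fr : Frame) : ℕ :=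
  if fr.1.1 < 3 then
    combN P fr.1.1 (fr.2.1.getD fr.1.2.1 0) (evG P (pickG P fr.2.2.1 fr.2.2.2 v) 0)
      (evG P (pickG P fr.2.2.1 fr.2.2.2 v) 1)
    else (clN P fr.1.2.2 fr.2.1 * v) % P

/-- The value found by the algorithm. -/
def solveG (P : ℕ) (cand : List Op × List ℕ × ℕ → List Cf) (ops : List Op) (a : List ℕ) : ℕ :=
  (((fwd P cand)^[ops.length] (ops, a, [])).2.2).foldl (bwd P) (1 % P)

/-- The rows for the level with remaining operations `s`, assignment `a` and variable `v`. -/
def rowG (feat : Ins → List (ℤ × Φ)) (P : ℕ) (q : List Op × List ℕ × ℕ) (t : ℕ × ℕ) :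
    List (ℤ × Φ) :=
  feat (P, q.1, q.2.1.set q.2.2 t.1, t.2)

/-- The candidates computed from the features. -/
def candF (feat : Ins → List (ℤ × Φ)) (P T n : ℕ) (q : List Op × List ℕ × ℕ) : List Cf :=
  candG (rowG feat P q) P T n

/-! ### Hardness -/

/-- The total weight `d`, the width `c` and the census of `S` are jointly polynomially bounded. -/
def PolyBounded (S : Set (List Bool)) (d c : ℕ → ℕ) : Prop :=
  Monotone d ∧ Monotone c ∧
    ∃ q : Polynomial ℕ, ∀ n, (d n + 1) * (census S n + 1) ^ c n ≤ q.eval n

end Pool.Agent.H573R2.PSp
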