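import Pool.Agent.H573R2.PSp.Defs

/-!
# Definitions for the nondeterministic version, and the final statements
-/

namespace Pool.Agent.H573R2.PSp

open Pool.Agent.NPC Pool.Agent.H579R2.Spt Pool.Agent.H623R2.PS

/-- Total single-valued nondeterministic polynomial-time functions (the class `NPSV_t`): the
length of the value is polynomially bounded and the graph is in `NP`. -/
def NPSVt (g : List Bool → List Bool) : Prop :=
  (∃ p : Polynomial ℕ, ∀ x, (g x).length ≤ p.eval x.length) ∧
    InNP {z | ∃ x, z = pairBits x (g x)}

/-- `A` reduces to `S` by a nondeterministic polynomial-time single-valued threshold reduction of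
total weight `d` and width `c`: as `ThresholdReduces`, but the reduction function is only required
to be computable by a total single-valued nondeterministic polynomial-time machine. -/
def NThresholdReduces (A S : Set (List Bool)) (d c : ℕ → ℕ) : Prop :=
  ∃ r : List Bool → List (ℤ × List (List Bool)), NPSVt (fun x => bits (r x)) ∧
    ∀ x, (∀ t ∈ r x, t.2.length ≤ c x.length) ∧ weight (r x) ≤ d x.length ∧
      (x ∈ A ↔ 0 < value S (r x))

end Pool.Agent.H573R2.PSp
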