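import Pool.Agent.H573R2.PSp.Main2

/-!
# Final statements; disjunctive and conjunctive reductions are threshold reductions
-/

namespace Pool.Agent.H573R2.PSp

open Pool.Agent.NPC Pool.Agent.H579R2.Spt Pool.Agent.H623R2.PS

/-- **Deterministic version.** -/
theorem tfae_P : [∀ L, InPSPACE L → InP L,
    ∃ S, Sparse S ∧ ∀ L, InPSPACE L → ∃ (q : Polynomial ℕ) (c : ℕ),
      ThresholdReduces L S (fun n => q.eval n) (fun _ => c),
    ∃ S, ∀ L, InPSPACE L → ∃ d c, PolyBounded S d c ∧ ThresholdReduces L S d c].TFAE := by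
  tfae_have 1 → 2 := fun h => ⟨∅, sparse_empty, fun L hL => ⟨1, 0, by
    simpa using thr_of_inP (h L hL)⟩⟩
  tfae_have 2 → 3 := fun ⟨S, hS, h⟩ => ⟨S, fun L hL => by
    obtain ⟨q, c, hr⟩ := h L hL
    exact ⟨_, _, polyBounded_of_sparse hS q c, hr⟩⟩
  tfae_have 3 → 1 := fun ⟨S, h⟩ => main h
  tfae_finish

/-- **Nondeterministic version.** -/
theorem tfae_NP : [∀ L, InPSPACE L → InNP L,
    ∃ S, Sparse S ∧ ∀ L, InPSPACE L → ∃ (q : Polynomial ℕ) (c : ℕ),
      NThresholdReduces L S (fun n => q.eval n) (fun _ => c),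
    ∃ S, ∀ L, InPSPACE L → ∃ d c, PolyBounded S d c ∧ NThresholdReduces L S d c].TFAE := by
  tfae_have 1 → 2 := fun h => ⟨∅, sparse_empty, fun L hL => ⟨1, 0, by
    simpa using nthr_of_inNP (h L hL) (h Lᶜ (compl_inPSPACE hL))⟩⟩
  tfae_have 2 → 3 := fun ⟨S, hS, h⟩ => ⟨S, fun L hL => by
    obtain ⟨q, c, hr⟩ := h L hL
    exact ⟨_, _, polyBounded_of_sparse hS q c, hr⟩⟩
  tfae_have 3 → 1 := fun ⟨S, h⟩ => main2 h
  tfae_finish

/-! ### Examples -/

theorem weight_map_one (l : List (List Bool)) :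
    weight (l.map (fun y => ((1 : ℤ), [y]))) = l.length := by
  induction l with
  | nil => rfl
  | cons a l ih =>
    have e : weight ((a :: l).map (fun y => ((1 : ℤ), [y]))) =
        1 + weight (l.map (fun y => ((1 : ℤ), [y]))) := by simp [weight]
    rw [e, ih, List.length_cons]
    omega

theorem value_map_one (S : Set (List Bool)) (l : List (List Bool)) :
    0 ≤ value S (l.map (fun y => ((1 : ℤ), [y]))) ∧
      value S (l.map (fun y => ((1 : ℤ), [y]))) ≤ l.length ∧
      (0 < value S (l.map (fun y => ((1 : ℤ), [y]))) ↔ ∃ y ∈ l, y ∈ S) ∧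
      ((l.length : ℤ) ≤ value S (l.map (fun y => ((1 : ℤ), [y]))) ↔ ∀ y ∈ l, y ∈ S) := by
  classical
  induction l with
  | nil => simp [value]
  | cons a l ih =>
    obtain ⟨h1, h2, h3, h4⟩ := ih
    have e : value S ((a :: l).map (fun y => ((1 : ℤ), [y]))) =
        (if a ∈ S then 1 else 0) + value S (l.map (fun y => ((1 : ℤ), [y]))) := by
      simp [value]
    rw [e]
    by_cases ha : a ∈ S
    · rw [if_pos ha]
      refine ⟨by omega, by push_cast [List.length_cons]; omega, ?_, ?_⟩
      · exact ⟨fun _ => ⟨a, List.mem_cons_self, ha⟩, fun _ => by omega⟩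
      · rw [List.forall_mem_cons, ← h4]
        push_cast [List.length_cons]
        constructor
        · intro h; exact ⟨ha, by omega⟩
        · rintro ⟨_, h⟩; omega
    · rw [if_neg ha]
      refine ⟨by omega, by push_cast [List.length_cons]; omega, ?_, ?_⟩
      · rw [zero_add, h3]
        simp [ha]
      · rw [List.forall_mem_cons]
        push_cast [List.length_cons]
        constructor
        · intro h; exfalso; omega
        · rintro ⟨h, _⟩; exact absurd h ha

theorem length_bound {f : List Bool → List (List Bool)} (hf : NPC.Poly f) :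
    ∃ q : Polynomial ℕ, ∀ x, (f x).length ≤ q.eval x.length := by
  obtain ⟨p, hp⟩ := hf.sz_le
  refine ⟨p.comp (Polynomial.C 4 * Polynomial.X + 1), fun x => ?_⟩
  have h1 : (f x).length < sz (f x) := length_lt_sz _
  have h2 := hp x
  have h3 := eval_mono p (sz_listBool_le x)
  simp only [Polynomial.eval_comp, Polynomial.eval_add, Polynomial.eval_mul, Polynomial.eval_C,
    Polynomial.eval_X, Polynomial.eval_one]
  omega

theorem mapOne_poly {f : List Bool → List (List Bool)} (hf : NPC.Poly f) :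
    NPC.Poly (fun x => (f x).map (fun y => ((1 : ℤ), [y]))) :=
  NPC.Poly.map (l := f) (F := fun _ y => ((1 : ℤ), [y])) hf
    (NPC.Poly.pair (NPC.Poly.const 1) (NPC.Poly.cons (NPC.Poly.snd NPC.Poly.id)
      (NPC.Poly.const [])))

theorem polyTime_bits' {α : Type} [TEnc α] {r : List Bool → α} (hr : NPC.Poly r) :
    PolyTime (fun x => bits (r x)) :=
  PIso.poly_iff.1 (bits_poly.comp hr)

/-- Disjunctive reductions are threshold reductions. -/
theorem ThresholdReduces.of_disjunctive {A S : Set (List Bool)} {f : List Bool → List (List Bool)}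
    (hf : NPC.Poly f) (h : ∀ x, x ∈ A ↔ ∃ y ∈ f x, y ∈ S) :
    ∃ q : Polynomial ℕ, ThresholdReduces A S (fun n => q.eval n) (fun _ => 1) := by
  obtain ⟨q, hq⟩ := length_bound hf
  refine ⟨q, fun x => (f x).map (fun y => ((1 : ℤ), [y])), polyTime_bits' (mapOne_poly hf),
    fun x => ⟨?_, ?_, ?_⟩⟩
  · intro t ht
    obtain ⟨y, _, rfl⟩ := List.mem_map.1 ht
    simp
  · rw [weight_map_one]
    exact hq x
  · rw [(value_map_one S (f x)).2.2.1]
    exact h x

/-- Conjunctive reductions are threshold reductions. -/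
theorem ThresholdReduces.of_conjunctive {A S : Set (List Bool)} {f : List Bool → List (List Bool)}
    (hf : NPC.Poly f) (h : ∀ x, x ∈ A ↔ ∀ y ∈ f x, y ∈ S) :
    ∃ q : Polynomial ℕ, ThresholdReduces A S (fun n => q.eval n) (fun _ => 1) := by
  obtain ⟨q, hq⟩ := length_bound hf
  refine ⟨Polynomial.C 2 * q + 1, fun x => (1 - ((f x).length : ℤ), []) ::
    (f x).map (fun y => ((1 : ℤ), [y])), polyTime_bits' ?_, fun x => ⟨?_, ?_, ?_⟩⟩
  · have h1 : NPC.Poly (fun x => (1 : ℤ) - ((f x).length : ℤ)) := by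
      have h2 : NPC.Poly (fun x => ((f x).length : ℤ)) := NPC.Poly.natCast_int (NPC.Poly.length hf)
      have h3 := NPC.Poly.iadd (NPC.Poly.const (1 : ℤ)) (NPC.Poly.ineg h2)
      exact h3.congr fun x => by ring
    exact NPC.Poly.cons (NPC.Poly.pair h1 (NPC.Poly.const [])) (mapOne_poly hf)
  · intro t ht
    rcases List.mem_cons.1 ht with rfl | ht
    · simp
    · obtain ⟨y, _, rfl⟩ := List.mem_map.1 ht
      simp
  · have e : weight ((1 - ((f x).length : ℤ), []) :: (f x).map (fun y => ((1 : ℤ), [y]))) =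
        (1 - ((f x).length : ℤ)).natAbs + weight ((f x).map (fun y => ((1 : ℤ), [y]))) := by
      simp [weight]
    rw [e, weight_map_one]
    have h1 := hq x
    simp only [Polynomial.eval_add, Polynomial.eval_mul, Polynomial.eval_C, Polynomial.eval_one]
    omega
  · have e : value S ((1 - ((f x).length : ℤ), []) :: (f x).map (fun y => ((1 : ℤ), [y]))) =
        (1 - ((f x).length : ℤ)) + value S ((f x).map (fun y => ((1 : ℤ), [y]))) := by
      simp [value]
    rw [e, h x, ← (value_map_one S (f x)).2.2.2]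
    omega

end Pool.Agent.H573R2.PSp
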