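import Pool.Agent.H573R2.PSp.P.ALG
import Pool.Agent.H573R2.PSp.P.ARI
import Pool.Agent.H573R2.PSp.P.CAN
import Pool.Agent.H573R2.PSp.P.CF
import Pool.Agent.H573R2.PSp.P.DEG
import Pool.Agent.H573R2.PSp.P.OPS
import Pool.Agent.H573R2.PSp.P.POL3
import Pool.Agent.H573R2.PSp.P.SEP
import Pool.Agent.H573R2.PSp.P.POL2
import Pool.Agent.H573R2.PSp.P.PSP

/-!
# The main theorem: threshold-hard sparse sets for PSPACE
-/

namespace Pool.Agent.H573R2.PSp

open Pool.Agent.NPC Pool.Agent.H579R2.Spt Pool.Agent.H656R2.AK Pool.Agent.H623R2.PS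
open Finset

/-- membership in the truncated sets -/
noncomputable def zS (S : Set (List Bool)) : List (List Bool) → ℤ := by
  classical
  exact fun Q => if ∀ y ∈ Q, y ∈ S then 1 else 0

theorem zS_one {S : Set (List Bool)} {Q : List (List Bool)} (h : ∀ y ∈ Q, y ∈ S) : zS S Q = 1 := by
  classical
  exact if_pos h

theorem zS_zero {S : Set (List Bool)} {Q : List (List Bool)} (h : ¬ ∀ y ∈ Q, y ∈ S) :
    zS S Q = 0 := by
  classical
  exact if_neg h

/-- The rows of a level are good for the true polynomial, if all instances are small. -/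
theorem goodRow_of {S : Set (List Bool)} {d c : ℕ → ℕ} (hd : Monotone d) (hc : Monotone c)
    {r : List Bool → List (ℤ × List (List Bool))}
    (hrS : ∀ x, (∀ t ∈ r x, t.2.length ≤ c x.length) ∧ weight (r x) ≤ d x.length ∧
      (x ∈ lang BP ↔ 0 < value S (r x))) {P k N v : ℕ} (hP : 0 < P) (s : List Op) (a : List ℕ) (i : ℕ)
    (g : Cf) (hg : ∀ t < P, evG P g t = evN P s (a.set i t))
    (hN : ∀ t ∈ range P ×ˢ range (2 ^ k), (bits ((P, s, a.set i t.1, t.2) : Ins)).length ≤ N ∧
      sz (r (bits ((P, s, a.set i t.1, t.2) : Ins))) ≤ N)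
    (hv : (d N + 1) * (census S N + 1) ^ c N ≤ v) :
    GoodRow (rowG (fun q => aug (r (bits q))) P (s, a, i)) P (2 ^ k) g (zS S) (4 * (v : ℤ) ^ 2)
      (v : ℤ) := by
  classical
  have hdv : d N + 1 ≤ v :=
    (Nat.le_mul_of_pos_right _ (Nat.pow_pos (Nat.succ_pos _))).trans hv
  have hcv : (census S N + 1) ^ c N ≤ v := (Nat.le_mul_of_pos_left _ (Nat.succ_pos _)).trans hv
  have hmem : ∀ t ∈ range P ×ˢ range (2 ^ k), labG P t g = true ↔
      0 < value S (r (bits ((P, s, a.set i t.1, t.2) : Ins))) := by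
    intro t ht
    have ht1 : t.1 < P := Finset.mem_range.1 (Finset.mem_product.1 ht).1
    rw [← (hrS _).2.2, bits_mem_lang, labG, hg t.1 ht1]
    exact ⟨fun h => ⟨hP, h⟩, fun h => h.2⟩
  refine ⟨?_, ?_, by positivity, ?_, ?_⟩
  · intro t ht h
    have h1 := (hmem t ht).1 h
    change 1 ≤ ev (zS S) (aug (r (bits ((P, s, a.set i t.1, t.2) : Ins))))
    rw [ev_aug S (zS S) (fun Q h => zS_one h) (fun Q h => zS_zero h)]
    omega
  · intro t ht h
    have h1 : ¬ 0 < value S (r (bits ((P, s, a.set i t.1, t.2) : Ins))) := fun h' => by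
      rw [(hmem t ht).2 h'] at h
      exact absurd h (by simp)
    change ev (zS S) (aug (r (bits ((P, s, a.set i t.1, t.2) : Ins)))) ≤ -1
    rw [ev_aug S (zS S) (fun Q h => zS_one h) (fun Q h => zS_zero h)]
    omega
  · intro t ht
    have h3 := hN t ht
    set q : Ins := (P, s, a.set i t.1, t.2) with hq
    have h4 := (hrS (bits q)).2.1
    have h5 : d (bits q).length ≤ d N := hd h3.1
    have h6 : wt (aug (r (bits q))) ≤ 2 * v := by
      rw [wt_aug]; omega
    have h7 : ((wt (aug (r (bits q))) : ℕ) : ℤ) ≤ 2 * (v : ℤ) := by exact_mod_cast h6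
    have h8 := dot_le (aug (r (bits q))) (aug (r (bits q)))
    have h9 : (0 : ℤ) ≤ (wt (aug (r (bits q))) : ℕ) := Int.natCast_nonneg _
    change dot (aug (r (bits q))) (aug (r (bits q))) ≤ 4 * (v : ℤ) ^ 2
    nlinarith
  · intro Ω hΩ
    have h1 : ∑ Q ∈ Ω, zS S Q * zS S Q = ((Ω.filter (fun Q => ∀ y ∈ Q, y ∈ S)).card : ℤ) := by
      rw [Finset.card_filter]
      push_cast
      refine Finset.sum_congr rfl fun Q _ => ?_
      by_cases hQ : ∀ y ∈ Q, y ∈ S
      · rw [zS_one hQ, if_pos hQ]; norm_num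
      · rw [zS_zero hQ, if_neg hQ]; norm_num
    rw [h1]
    have h2 : (Ω.filter (fun Q => ∀ y ∈ Q, y ∈ S)).card ≤ (census S N + 1) ^ c N := by
      have key : ∀ Q ∈ Ω, Q.length ≤ c N ∧ ∀ y ∈ Q, y.length ≤ N := by
        intro Q hQ
        obtain ⟨t, ht, b, hb, hbQ⟩ := hΩ Q hQ
        have h3 := hN t ht
        set q : Ins := (P, s, a.set i t.1, t.2) with hq
        rcases List.mem_cons.1 (show b ∈ aug (r (bits q)) from hb) with h4 | h4
        · rw [← hbQ, h4]; simp
        · obtain ⟨w, hw, rfl⟩ := List.mem_map.1 h4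
          subst hbQ
          refine ⟨((hrS _).1 w hw).trans (hc h3.1), fun y hy => ?_⟩
          have e1 : sz w < sz (r (bits q)) := sz_le_of_mem hw
          have e2 : sz y < sz w.2 := sz_le_of_mem hy
          have e3 : sz w.2 < sz w := by
            have g1 : sz w = sz w.1 + sz w.2 + 1 := sz_pair w.1 w.2
            have g2 := sz_pos w.1
            omega
          have e4 : y.length < sz y := length_lt_sz y
          have e5 : sz (r (bits q)) ≤ N := h3.2
          exact (e4.le.trans (e2.le.trans (e3.le.trans e1.le))).trans e5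
      refine card_true_le S (c N) N _ (fun Q hQ => (key Q (Finset.mem_filter.1 hQ).1).1)
        (fun Q hQ y hy => ⟨(Finset.mem_filter.1 hQ).2 y hy,
          (key Q (Finset.mem_filter.1 hQ).1).2 y hy⟩)
    exact_mod_cast h2.trans hcv

/-- The size of an instance of `BP`. -/
theorem sz_ins (P : ℕ) (s : List Op) (a : List ℕ) (ρ : ℕ) :
    sz ((P, s, a, ρ) : Ins) = sz P + sz s + sz a + sz ρ + 3 := by
  rw [sz_pair, sz_pair, sz_pair]; omega

theorem sz_list_le {α : Type} [TEnc α] (l : List α) (B : ℕ) (h : ∀ u ∈ l, sz u ≤ B) :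
    sz l ≤ l.length * (B + 1) + 1 := by
  induction l with
  | nil => simp
  | cons a l ih =>
    rw [sz_list_cons, List.length_cons]
    have h1 := h a List.mem_cons_self
    have h2 := ih (fun u hu => h u (List.mem_cons_of_mem _ hu))
    have h3 : (l.length + 1) * (B + 1) = l.length * (B + 1) + (B + 1) := by ring
    omega

/-- The two sides of the true value for one level. -/
theorem level {S : Set (List Bool)} {d c : ℕ → ℕ} (hd : Monotone d) (hc : Monotone c)
    {r : List Bool → List (ℤ × List (List Bool))}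
    (hrS : ∀ x, (∀ t ∈ r x, t.2.length ≤ c x.length) ∧ weight (r x) ≤ d x.length ∧
      (x ∈ lang BP ↔ 0 < value S (r x))) {P k N v n m : ℕ} (hP : P.Prime) (hk : P ≤ 2 ^ k)
    (s : List Op) (a : List ℕ) (i : ℕ) (ham : a.length = m)
    (hdeg : DegLe (F := ZMod P) m (evF s) i 3)
    (hN : ∀ t ∈ range P ×ˢ range (2 ^ k), (bits ((P, s, a.set i t.1, t.2) : Ins)).length ≤ N ∧
      sz (r (bits ((P, s, a.set i t.1, t.2) : Ins))) ≤ N)
    (hv : (d N + 1) * (census S N + 1) ^ c N ≤ v) (hn : n = 4 * v ^ 3 + 1)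
    (hX : 3 * (32 * v ^ 4 * n) * (32 * v ^ 4 * n) < P) :
    ∃ g ∈ candF (fun q => aug (r (bits q))) P (2 ^ k) n (s, a, i),
      (∀ t < P, evG P g t = evN P s (a.set i t)) ∧
      sepG P (candF (fun q => aug (r (bits q))) P (2 ^ k) n (s, a, i)) < P ∧
      ∀ g' ∈ candF (fun q => aug (r (bits q))) P (2 ^ k) n (s, a, i),
        evG P g' (sepG P (candF (fun q => aug (r (bits q))) P (2 ^ k) n (s, a, i))) =
          evG P g (sepG P (candF (fun q => aug (r (bits q))) P (2 ^ k) n (s, a, i))) → g' = g := by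
  obtain ⟨g, hg, hgv⟩ := exists_cf hP s a hdeg ham
  have hrow := goodRow_of hd hc hrS hP.pos s a i g hgv hN hv
  have hv1 : 1 ≤ v := by
    refine le_trans ?_ hv
    exact Nat.mul_pos (Nat.succ_pos _) (Nat.pow_pos (Nat.succ_pos _))
  have hM1 : 32 * v ^ 4 * n ≤ 32 * v ^ 4 * n * (32 * v ^ 4 * n) := by
    have : 1 ≤ 32 * v ^ 4 * n := by
      have h1 : 1 ≤ v ^ 4 := Nat.one_le_pow _ _ hv1
      have h2 : 1 ≤ n := by omega
      nlinarith
    nlinarith
  obtain ⟨h1, h2, h3, h4⟩ := candG_spec hrow hP hk hg n (by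
      rw [hn]; push_cast; nlinarith) (by
      have h5 : 3 * (32 * v ^ 4 * n) ≤ P := by nlinarith
      have h6 : ((3 * (32 * v ^ 4 * n) : ℕ) : ℤ) ≤ (P : ℤ) := by exact_mod_cast h5
      push_cast at h6
      refine le_trans (le_of_eq ?_) h6
      ring)
  set l := candG (rowG (fun q => aug (r (bits q))) P (s, a, i)) P (2 ^ k) n with hl
  have hlen : l.length ≤ 32 * v ^ 4 * n := by
    have h5 : (l.length : ℤ) ≤ ((32 * v ^ 4 * n : ℕ) : ℤ) := by
      refine h2.trans (le_of_eq ?_)
      push_cast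
      ring
    exact_mod_cast h5
  obtain ⟨h5, h6⟩ := sepG_spec hP l h4 (by
    refine lt_of_le_of_lt ?_ hX
    have h7 : l.length * l.length ≤ (32 * v ^ 4 * n) * (32 * v ^ 4 * n) :=
      Nat.mul_le_mul hlen hlen
    nlinarith)
  exact ⟨g, h1, hgv, h5, fun g' hg' h => h6 g' hg' g h1 h⟩

theorem goodO_suffix {F : Type} [CommRing F] {m : ℕ} {ops : List Op} (h : GoodO F m ops) :
    ∀ (o : Op) (s : List Op), (o :: s) <:+ ops → o.1 < 3 → DegLe (F := F) m (evF s) o.2.1 3 := by
  induction ops with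
  | nil => intro o s hs; simp at hs
  | cons o' ops ih =>
    intro o s hs ho
    rcases List.suffix_cons_iff.1 hs with h1 | h1
    · obtain ⟨rfl, rfl⟩ := List.cons_eq_cons.1 h1
      exact h.1 ho
    · exact ih h.2 o s h1 ho

theorem bits_sz : ∃ p : Polynomial ℕ, ∀ i : Ins, (bits i).length ≤ p.eval (sz i) := by
  obtain ⟨p, hp⟩ := (bits_poly (α := Ins)).sz_le
  exact ⟨p, fun i => (length_lt_sz (bits i)).le.trans (hp i)⟩

/-- **The core**: the algorithm with the rows computed from the threshold reduction of `BP` gives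
the truth value of a quantified formula. -/
theorem core {S : Set (List Bool)} {d c : ℕ → ℕ} (hB : PolyBounded S d c)
    {r : List Bool → List (ℤ × List (List Bool))}
    (hrS : ∀ x, (∀ t ∈ r x, t.2.length ≤ c x.length) ∧ weight (r x) ≤ d x.length ∧
      (x ∈ lang BP ↔ 0 < value S (r x))) {p2 : Polynomial ℕ}
    (hp2 : ∀ i : Ins, sz (r (bits i)) ≤ p2.eval (sz i)) {fq : List Bool → QF}
    (hfq : NPC.Poly fq) (hwf : ∀ x, QFwf (fq x)) :
    ∃ P n : List Bool → ℕ, UPoly P ∧ UPoly n ∧ (∀ x, 0 < P x) ∧ ∀ x,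
      (solveG (P x) (candF (fun q => aug (r (bits q))) (P x) (2 ^ (P x).size) (n x))
        (opsOf (fq x)) (List.replicate (fq x).1.length 0) = 1 ↔
        evq (fq x).1 (fun u => evc u (fq x).2) = true) := by
  classical
  obtain ⟨hd, hc, qB, hqB⟩ := hB
  obtain ⟨p1, hp1⟩ := bits_sz
  obtain ⟨pf, hpf⟩ := hfq.sz_le
  obtain ⟨po, hpo⟩ := (opsOf_poly hfq).sz_le
  set p3 : Polynomial ℕ := Polynomial.C 8 * Polynomial.X + Polynomial.C 22 +
    po.comp (Polynomial.C 4 * Polynomial.X + 1) +
    (pf.comp (Polynomial.C 4 * Polynomial.X + 1)) * (Polynomial.C 4 * Polynomial.X + Polynomial.C 10)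
    with hp3
  obtain ⟨e, he⟩ := exists_pow_bound ((p1 + p2).comp p3)
  set pv : Polynomial ℕ := qB.comp (Polynomial.X ^ e) with hpv
  set pn : Polynomial ℕ := Polynomial.C 4 * pv ^ 3 + 1 with hpn
  set pM : Polynomial ℕ := Polynomial.C 32 * pv ^ 4 * pn with hpM
  set pX : Polynomial ℕ := Polynomial.C 3 * pM * pM + 1 with hpX
  obtain ⟨e2, he2⟩ := exists_pow_bound pX
  obtain ⟨C2, hC2⟩ := exists_two_pow_bound e2
  set C : ℕ := max C2 2 with hC
  set b : List Bool → ℕ := fun x => x.length + C with hb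
  have hbU : UPoly b := (UPoly.length NPC.Poly.id).add (UPoly.const C)
  have hPU : UPoly (fun x => prm (pX.eval (b x))) := prm_poly (hbU.eval pX)
  have hX0 : ∀ x, pX.eval (b x) ≠ 0 := by
    intro x
    rw [hpX, Polynomial.eval_add, Polynomial.eval_one]; omega
  refine ⟨fun x => prm (pX.eval (b x)), fun x => pn.eval (b x), hPU, hbU.eval pn,
    fun x => (prm_spec (hX0 x)).1.pos, fun x => ?_⟩
  have hb2 : 2 ≤ b x := (le_max_right C2 2).trans (Nat.le_add_left _ _)
  have hbC : C2 ≤ b x := (le_max_left C2 2).trans (Nat.le_add_left _ _)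
  have hX2 : pX.eval (b x) ≤ 2 ^ b x := (he2 (b x) hb2).trans (hC2 (b x) hbC)
  obtain ⟨hPp, hP1, hP2⟩ := prm_spec (hX0 x)
  set P : ℕ := prm (pX.eval (b x)) with hPdef
  set k : ℕ := Nat.size P with hk
  have hPk : P ≤ 2 ^ k := (Nat.lt_size_self P).le
  have hk2 : k ≤ b x + 2 := by
    rw [hk, Nat.size_le, pow_add]
    have h0 : 0 < 2 ^ b x := by positivity
    omega
  set N : ℕ := b x ^ e with hN
  set v : ℕ := qB.eval N with hv
  have hvp : pv.eval (b x) = v := by
    rw [hpv, Polynomial.eval_comp]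
    simp only [Polynomial.eval_pow, Polynomial.eval_X]
    rfl
  have hn : pn.eval (b x) = 4 * v ^ 3 + 1 := by
    rw [hpn]
    simp only [Polynomial.eval_mul, Polynomial.eval_add, Polynomial.eval_one, Polynomial.eval_pow,
      Polynomial.eval_C]
    rw [hvp]
  have hM : pM.eval (b x) = 32 * v ^ 4 * pn.eval (b x) := by
    rw [hpM]
    simp only [Polynomial.eval_mul, Polynomial.eval_pow, Polynomial.eval_C]
    rw [hvp]
  have hXv : 3 * (32 * v ^ 4 * pn.eval (b x)) * (32 * v ^ 4 * pn.eval (b x)) < P := by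
    refine lt_of_le_of_lt ?_ hP1
    have h1 : pX.eval (b x) = 3 * pM.eval (b x) * pM.eval (b x) + 1 := by
      rw [hpX, Polynomial.eval_add, Polynomial.eval_mul, Polynomial.eval_mul,
        Polynomial.eval_one, Polynomial.eval_C]
    rw [h1, hM]
    exact Nat.le_succ _
  set ops := opsOf (fq x) with hops
  set m := (fq x).1.length with hm
  have hlx : sz x ≤ 4 * b x + 1 := by
    have h1 := sz_listBool_le x
    have h2 : x.length ≤ b x := Nat.le_add_right _ _
    omega
  have hmle : m ≤ pf.eval (4 * b x + 1) := by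
    have h1 : m < sz (fq x).1 := length_lt_sz (fq x).1
    have h2 : sz (fq x) = sz (fq x).1 + sz (fq x).2 + 1 := sz_pair (fq x).1 (fq x).2
    have h3 := (hpf x).trans (eval_mono pf hlx)
    omega
  have hN1 : ∀ (s : List Op) (a : List ℕ), s <:+ ops → a.length = m → (∀ y ∈ a, y < P) →
      ∀ i, ∀ t ∈ range P ×ˢ range (2 ^ k),
      (bits ((P, s, a.set i t.1, t.2) : Ins)).length ≤ N ∧
        sz (r (bits ((P, s, a.set i t.1, t.2) : Ins))) ≤ N := by
    rintro s a hs ha haP i ⟨t1, t2⟩ ht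
    rw [Finset.mem_product, Finset.mem_range, Finset.mem_range] at ht
    have ht1 : t1 < P := ht.1
    have ht2 : t2 < 2 ^ k := ht.2
    have hlt : ∀ y, y < P → sz y ≤ 4 * (b x + 2) + 1 := by
      intro y hy
      have := Nat.size_le_size hy.le
      exact (sz_nat_le y).trans (by omega)
    have h1 : sz P ≤ 4 * (b x + 2) + 1 := (sz_nat_le P).trans (by omega)
    have h3 : sz t2 ≤ 4 * (b x + 2) + 1 := by
      have := Nat.size_le.2 ht2
      exact (sz_nat_le t2).trans (by omega)
    have h4 : sz (a.set i t1) ≤ pf.eval (4 * b x + 1) * (4 * b x + 10) + 1 := by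
      have h5 := sz_list_le (a.set i t1) (4 * (b x + 2) + 1) (by
        intro u hu
        rcases List.mem_or_eq_of_mem_set hu with h | h
        · exact hlt u (haP u h)
        · rw [h]; exact hlt t1 ht1)
      rw [List.length_set, ha] at h5
      have h6 : m * (4 * (b x + 2) + 1 + 1) ≤ pf.eval (4 * b x + 1) * (4 * b x + 10) :=
        Nat.mul_le_mul hmle (by omega)
      omega
    have h5 : sz s ≤ po.eval (4 * b x + 1) :=
      (sz_suffix_le hs).trans ((hpo x).trans (eval_mono po hlx))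
    have h7 : sz ((P, s, a.set i t1, t2) : Ins) ≤ p3.eval (b x) := by
      rw [sz_ins, hp3]
      simp only [Polynomial.eval_add, Polynomial.eval_mul, Polynomial.eval_C, Polynomial.eval_X,
        Polynomial.eval_comp, Polynomial.eval_one]
      omega
    have h8 := he (b x) hb2
    rw [Polynomial.eval_comp, Polynomial.eval_add] at h8
    have h9 := (hp1 ((P, s, a.set i t1, t2) : Ins)).trans (eval_mono p1 h7)
    have h10 := (hp2 ((P, s, a.set i t1, t2) : Ins)).trans (eval_mono p2 h7)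
    exact ⟨h9.trans (by omega), h10.trans (by omega)⟩
  have hgood := goodO_opsOf (ZMod P) (fq x)
  haveI : Fact P.Prime := ⟨hPp⟩
  have hsolve := solveG_correct hPp.two_le (m := m)
    (candF (fun q => aug (r (bits q))) P (2 ^ k) (pn.eval (b x))) ops (List.replicate m 0)
    (by simp) (by
      intro y hy
      rw [List.eq_of_mem_replicate hy]
      exact hPp.pos) (by
      intro o s a hs ha haP ho
      have hs' : s <:+ ops := (List.suffix_cons o s).trans hs
      exact level hd hc hrS hPp hPk s a o.2.1 ha (goodO_suffix hgood o s hs ho)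
        (hN1 s a hs' ha haP o.2.1) (hqB N) hn hXv)
  rw [hsolve]
  have h1 := evN_cast_map hPp.pos ops (List.replicate m 0)
  have h2 := evN_lt hPp.pos ops (List.replicate m 0)
  rw [List.map_replicate, Nat.cast_zero, evF_opsOf (ZMod P) (fq x) (hwf x)] at h1
  constructor
  · intro h
    by_contra hcon
    rw [if_neg hcon, h, Nat.cast_one] at h1
    exact one_ne_zero h1
  · intro h
    rw [if_pos h] at h1
    have h3 : ((evN P ops (List.replicate m 0) : ℕ) : ZMod P) = ((1 : ℕ) : ZMod P) := by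
      rw [h1]; simp
    rw [ZMod.natCast_eq_natCast_iff'] at h3
    rwa [Nat.mod_eq_of_lt h2, Nat.mod_eq_of_lt hPp.one_lt] at h3

/-- **Main theorem (deterministic version).** -/
theorem main {S : Set (List Bool)} (hS : ∀ L, InPSPACE L → ∃ d c, PolyBounded S d c ∧
    ThresholdReduces L S d c) : ∀ L, InPSPACE L → InP L := by
  intro L hL
  obtain ⟨d, c, hB, r, hr, hrS⟩ := hS _ bp_inPSPACE
  obtain ⟨fq, hfq, hwf, hfq'⟩ := qbf_hard hL
  have hrp : NPC.Poly (fun i : Ins => r (bits i)) := (poly_of_polyTime_bits hr).comp bits_poly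
  have hfp : NPC.Poly (fun i : Ins => aug (r (bits i))) := aug_poly.comp hrp
  obtain ⟨p2, hp2⟩ := hrp.sz_le
  obtain ⟨P, n, hP, hn, hP0, hcore⟩ := core hB hrS hp2 hfq hwf
  have hT : UPoly (fun x => 2 ^ (P x).size) := two_pow_size_poly hP
  have hcand : NPC.Poly (fun y : List Bool × (List Op × List ℕ × ℕ) =>
      candF (fun q => aug (r (bits q))) (P y.1) (2 ^ (P y.1).size) (n y.1) y.2) :=
    candF_poly (α := List Bool × (List Op × List ℕ × ℕ))
      (feat := fun y => aug (r (bits y.2))) (hfp.comp (NPC.Poly.snd NPC.Poly.id))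
      (hP.comp (NPC.Poly.fst NPC.Poly.id)) (hT.comp (NPC.Poly.fst NPC.Poly.id))
      (hn.comp (NPC.Poly.fst NPC.Poly.id)) (NPC.Poly.snd NPC.Poly.id)
  have hrep : NPC.Poly (fun x => List.replicate (fq x).1.length 0) :=
    poly_replicate (UPoly.length (NPC.Poly.fst hfq)) 0
  have hsol := solveG_poly hP hP0
    (cand := fun x q => candF (fun q => aug (r (bits q))) (P x) (2 ^ (P x).size) (n x) q)
    hcand (opsOf_poly hfq) hrep
  refine ⟨fun x => [decide (solveG (P x) (candF (fun q => aug (r (bits q))) (P x)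
    (2 ^ (P x).size) (n x)) (opsOf (fq x)) (List.replicate (fq x).1.length 0) = 1)], ?_,
    fun x => ?_⟩
  · exact polyTime_of_poly (NPC.Poly.decide_eq hsol (NPC.Poly.const 1))
  · rw [hfq' x, ← hcore x]
    simp

end Pool.Agent.H573R2.PSp
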