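import Pool.Agent.H573R2.PSp.Main
import Pool.Agent.H573R2.PSp.P.CV1
import Pool.Agent.H573R2.PSp.P.CV2

/-!
# The nondeterministic version of the main theorem
-/

namespace Pool.Agent.H573R2.PSp

open Pool.Agent.NPC Pool.Agent.H579R2.Spt Pool.Agent.H656R2.AK Pool.Agent.H623R2.PS
open Finset

/-- the outputs of the reduction -/
abbrev Out := List (ℤ × List (List Bool))

/-- Equality of instances is decidable. -/
instance instDecIns : DecidableEq Ins := fun a b => instDecidableEqOfLawfulBEq a b

/-- The features computed from a table of instances and outputs. -/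
def featT (tb : List (Ins × Out)) (i : Ins) : Out :=
  aug ((((tb.filter (fun e : Ins × Out => decide (e.1 = i))).head?).map
    (fun e : Ins × Out => e.2)).getD [])

/-- The instances used in the level with remaining operations `st.1` and assignment `st.2.1`. -/
def instL (P T : ℕ) (st : St) : List Ins :=
  (st.1.head?).elim [] (fun o => (tests P T).map (fun t =>
    (P, st.1.tail, st.2.1.set o.2.1 t.1, t.2)))

theorem featT_eq {r : List Bool → Out} {tb : List (Ins × Out)}
    (hT : ∀ e ∈ tb, e.2 = r (bits e.1)) {i : Ins} (hi : i ∈ tb.map Prod.fst) :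
    featT tb i = aug (r (bits i)) := by
  obtain ⟨e, he, rfl⟩ := List.mem_map.1 hi
  unfold featT
  congr 1
  have hmem : e ∈ tb.filter (fun e' : Ins × Out => decide (e'.1 = e.1)) :=
    List.mem_filter.2 ⟨he, by simp⟩
  cases hh : (tb.filter (fun e' : Ins × Out => decide (e'.1 = e.1))).head? with
  | none =>
    rw [List.head?_eq_none_iff] at hh
    rw [hh] at hmem
    simp at hmem
  | some e' =>
    have h1 := List.mem_filter.1 (List.mem_of_head? hh)
    have h2 : e'.1 = e.1 := by simpa using h1.2
    rw [Option.map_some, Option.getD_some, hT e' h1.1, h2]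

theorem candG_congr {Φ : Type} [DecidableEq Φ] {row1 row2 : ℕ × ℕ → List (ℤ × Φ)} {P T n : ℕ}
    (h : ∀ t ∈ tests P T, row1 t = row2 t) : candG row1 P T n = candG row2 P T n := by
  unfold candG
  congr 1
  funext g
  have : sysG row1 P T g = sysG row2 P T g := by
    unfold sysG
    exact List.map_congr_left fun t ht => by rw [h t ht]
  rw [this]

theorem candF_congr {Φ : Type} [DecidableEq Φ] {f1 f2 : Ins → List (ℤ × Φ)} {P T n : ℕ}
    {st : St} {o : Op} (ho : st.1.head? = some o) (h : ∀ i ∈ instL P T st, f1 i = f2 i) :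
    candF f1 P T n (st.1.tail, st.2.1, o.2.1) = candF f2 P T n (st.1.tail, st.2.1, o.2.1) := by
  refine candG_congr fun t ht => h _ ?_
  unfold instL
  rw [ho]
  exact List.mem_map.2 ⟨t, ht, rfl⟩

theorem fwd_congr {P : ℕ} {cand1 cand2 : List Op × List ℕ × ℕ → List Cf} {st : St}
    (h : ∀ o, st.1.head? = some o →
      cand1 (st.1.tail, st.2.1, o.2.1) = cand2 (st.1.tail, st.2.1, o.2.1)) :
    fwd P cand1 st = fwd P cand2 st := by
  unfold fwd
  cases ho : st.1.head? with
  | none => rfl
  | some o =>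
    rw [Option.elim_some, Option.elim_some]
    unfold fwd1
    rw [h o ho]

theorem iter_aux {X : Type} (f g : X → X) (x : X) (N : ℕ) (h : ∀ j < N, f (f^[j] x) = g (f^[j] x)) :
    ∀ j ≤ N, f^[j] x = g^[j] x := by
  intro j
  induction j with
  | zero => intro _; rfl
  | succ j ih =>
    intro hj
    rw [Function.iterate_succ_apply', Function.iterate_succ_apply', ← ih (by omega)]
    exact h j (by omega)

theorem iter_congr {P T n : ℕ} {f1 f2 : Ins → Out} (st0 : St) (N : ℕ)
    (h : ∀ j < N, ∀ i ∈ instL P T ((fwd P (candF f1 P T n))^[j] st0), f1 i = f2 i) :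
    ∀ j ≤ N, (fwd P (candF f1 P T n))^[j] st0 = (fwd P (candF f2 P T n))^[j] st0 :=
  iter_aux _ _ st0 N fun j hj => fwd_congr fun _ ho => candF_congr ho (h j hj)

/-- The test of a table: it contains all instances used by the run, and the value found is `1`. -/
def tst (P T n : ℕ) (ops : List Op) (a0 : List ℕ) (tb : List (Ins × Out)) : Bool :=
  (List.range ops.length).all (fun j =>
    (instL P T ((fwd P (candF (featT tb) P T n))^[min j ops.length] (ops, a0, []))).all
      (fun i => decide (i ∈ tb.map Prod.fst))) &&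
  decide (solveG P (candF (featT tb) P T n) ops a0 = 1)

theorem tst_sound {r : List Bool → Out} {P T n : ℕ} {ops : List Op} {a0 : List ℕ}
    {tb : List (Ins × Out)} (hT : ∀ e ∈ tb, e.2 = r (bits e.1)) (h : tst P T n ops a0 tb = true) :
    solveG P (candF (fun i => aug (r (bits i))) P T n) ops a0 = 1 := by
  unfold tst at h
  rw [Bool.and_eq_true, List.all_eq_true, decide_eq_true_eq] at h
  obtain ⟨h1, h2⟩ := h
  have key := iter_congr (P := P) (T := T) (n := n) (f1 := featT tb)
    (f2 := fun i => aug (r (bits i))) (ops, a0, []) ops.length (by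
      intro j hj i hi
      have h3 := h1 j (List.mem_range.2 hj)
      rw [min_eq_left hj.le, List.all_eq_true] at h3
      exact featT_eq hT (by simpa using h3 i hi)) ops.length le_rfl
  rw [← h2]
  unfold solveG
  rw [key]

theorem tst_complete {r : List Bool → Out} {P T n : ℕ} {ops : List Op} {a0 : List ℕ}
    {tb : List (Ins × Out)} (hT : ∀ e ∈ tb, e.2 = r (bits e.1))
    (hmem : ∀ j < ops.length, ∀ i ∈ instL P T
      ((fwd P (candF (fun i => aug (r (bits i))) P T n))^[j] (ops, a0, [])),
        i ∈ tb.map Prod.fst)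
    (h : solveG P (candF (fun i => aug (r (bits i))) P T n) ops a0 = 1) :
    tst P T n ops a0 tb = true := by
  have key := iter_congr (P := P) (T := T) (n := n) (f1 := fun i => aug (r (bits i)))
    (f2 := featT tb) (ops, a0, []) ops.length (by
      intro j hj i hi
      exact (featT_eq hT (hmem j hj i hi)).symm)
  unfold tst
  rw [Bool.and_eq_true, List.all_eq_true, decide_eq_true_eq]
  constructor
  · intro j hj
    have hj' := List.mem_range.1 hj
    rw [min_eq_left hj'.le, List.all_eq_true, ← key j hj'.le]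
    intro i hi
    simpa using hmem j hj' i hi
  · rw [← h]
    unfold solveG
    rw [key ops.length le_rfl]

theorem sepG_lt {P : ℕ} (hP : 0 < P) (l : List Cf) : sepG P l < P := by
  unfold sepG
  cases hh : (List.filter (fun r => l.all (fun g => l.all (fun g' =>
      decide (g = g') || !decide (evG P g r = evG P g' r)))) (List.range P)).head? with
  | none => simpa using hP
  | some a =>
    rw [Option.getD_some]
    exact List.mem_range.1 (List.mem_filter.1 (List.mem_of_head? hh)).1

/-- Invariants of the forward pass. -/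
theorem fwd_inv {P : ℕ} (hP : 0 < P) (cand : List Op × List ℕ × ℕ → List Cf) (ops : List Op)
    (a0 : List ℕ) (ha : ∀ y ∈ a0, y < P) (j : ℕ) :
    ((fwd P cand)^[j] (ops, a0, [])).1 <:+ ops ∧
      ((fwd P cand)^[j] (ops, a0, [])).2.1.length = a0.length ∧
      ∀ y ∈ ((fwd P cand)^[j] (ops, a0, [])).2.1, y < P := by
  induction j with
  | zero => exact ⟨List.suffix_rfl, rfl, ha⟩
  | succ j ih =>
    rw [Function.iterate_succ_apply']
    obtain ⟨h1, h2, h3⟩ := ih
    set st := (fwd P cand)^[j] (ops, a0, []) with hst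
    unfold fwd
    cases ho : st.1.head? with
    | none => exact ⟨h1, h2, h3⟩
    | some o =>
      rw [Option.elim_some]
      have ht : st.1.tail <:+ ops := (List.tail_suffix _).trans h1
      unfold fwd1
      split_ifs with ho3
      · refine ⟨ht, by simpa using h2, fun y hy => ?_⟩
        rcases List.mem_or_eq_of_mem_set hy with h | h
        · exact h3 y h
        · rw [h]; exact sepG_lt hP _
      · exact ⟨ht, h2, h3⟩

/-! ### Sizes -/

theorem tests_length (P T : ℕ) : (tests P T).length = P * T := by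
  unfold tests
  rw [List.length_flatMap]
  simp

theorem upoly_le {α : Type} [TEnc α] {n : α → ℕ} (hn : UPoly n) :
    ∃ q : Polynomial ℕ, ∀ a, n a ≤ q.eval (sz a) := by
  obtain ⟨q, hq⟩ := Poly.sz_le hn
  refine ⟨q, fun a => ?_⟩
  have h1 := hq a
  have h2 := length_lt_sz (List.replicate (n a) ())
  rw [List.length_replicate] at h2
  omega

theorem sizes {P : List Bool → ℕ} (hP : UPoly P) {fq : List Bool → QF} (hfq : NPC.Poly fq) :
    ∃ pI : Polynomial ℕ, ∀ (x : List Bool) (s : List Op) (a : List ℕ) (v t1 t2 : ℕ),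
      s <:+ opsOf (fq x) → a.length = (fq x).1.length → (∀ y ∈ a, y < P x) → t1 < P x →
      t2 < 2 ^ (P x).size → sz ((P x, s, a.set v t1, t2) : Ins) ≤ pI.eval (sz x) := by
  obtain ⟨qP, hqP⟩ := upoly_le hP
  obtain ⟨qT, hqT⟩ := upoly_le (two_pow_size_poly hP)
  obtain ⟨pf, hpf⟩ := hfq.sz_le
  obtain ⟨po, hpo⟩ := (opsOf_poly hfq).sz_le
  refine ⟨Polynomial.C 4 * qP + Polynomial.C 1 + po + (pf * (Polynomial.C 4 * qP + Polynomial.C 2)
    + Polynomial.C 1) + (Polynomial.C 4 * qT + Polynomial.C 1) + Polynomial.C 3, ?_⟩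
  intro x s a v t1 t2 hs ha haP ht1 ht2
  have hval : ∀ y, sz y ≤ 4 * y + 1 := fun y => by
    have h1 := sz_nat_le y
    have h2 := NPC.Poly.size_le_self y
    omega
  have h1 : sz (P x) ≤ 4 * qP.eval (sz x) + 1 := by
    have := hval (P x)
    have := hqP x
    omega
  have h2 : sz t2 ≤ 4 * qT.eval (sz x) + 1 := by
    have := hval t2
    have := hqT x
    omega
  have h3 : sz s ≤ po.eval (sz x) := (sz_suffix_le hs).trans (hpo x)
  have h4 : (fq x).1.length ≤ pf.eval (sz x) := by
    have h5 : (fq x).1.length < sz (fq x).1 := length_lt_sz (fq x).1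
    have h6 : sz (fq x) = sz (fq x).1 + sz (fq x).2 + 1 := sz_pair (fq x).1 (fq x).2
    have h7 := hpf x
    omega
  have h5 : sz (a.set v t1) ≤ pf.eval (sz x) * (4 * qP.eval (sz x) + 2) + 1 := by
    have h6 := sz_list_le (a.set v t1) (4 * qP.eval (sz x) + 1) (by
      intro u hu
      have hu' : u < P x := by
        rcases List.mem_or_eq_of_mem_set hu with h | h
        · exact haP u h
        · rw [h]; exact ht1
      have := hval u
      have := hqP x
      omega)
    rw [List.length_set, ha] at h6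
    have h7 : (fq x).1.length * (4 * qP.eval (sz x) + 1 + 1) ≤
        pf.eval (sz x) * (4 * qP.eval (sz x) + 2) := Nat.mul_le_mul h4 (by omega)
    omega
  rw [sz_ins]
  simp only [Polynomial.eval_add, Polynomial.eval_mul, Polynomial.eval_C]
  omega

/-! ### The small table -/

/-- The table of the true run. -/
def tbl (r : List Bool → Out) (P T n : ℕ) (ops : List Op) (a0 : List ℕ) : List (Ins × Out) :=
  (List.range ops.length).flatMap (fun j =>
    (instL P T ((fwd P (candF (fun i => aug (r (bits i))) P T n))^[j] (ops, a0, []))).map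
      (fun i => (i, r (bits i))))

theorem tbl_right {r : List Bool → Out} {P T n : ℕ} {ops : List Op} {a0 : List ℕ} :
    ∀ e ∈ tbl r P T n ops a0, e.2 = r (bits e.1) := by
  intro e he
  obtain ⟨j, _, hj⟩ := List.mem_flatMap.1 he
  obtain ⟨i, _, rfl⟩ := List.mem_map.1 hj
  rfl

theorem tbl_mem {r : List Bool → Out} {P T n : ℕ} {ops : List Op} {a0 : List ℕ} :
    ∀ j < ops.length, ∀ i ∈ instL P T
      ((fwd P (candF (fun i => aug (r (bits i))) P T n))^[j] (ops, a0, [])),
        i ∈ (tbl r P T n ops a0).map Prod.fst := by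
  intro j hj i hi
  refine List.mem_map.2 ⟨(i, r (bits i)), ?_, rfl⟩
  exact List.mem_flatMap.2 ⟨j, List.mem_range.2 hj, List.mem_map.2 ⟨i, hi, rfl⟩⟩

theorem tbl_length {r : List Bool → Out} {P T n : ℕ} {ops : List Op} {a0 : List ℕ} :
    (tbl r P T n ops a0).length ≤ ops.length * (P * T) := by
  unfold tbl
  rw [List.length_flatMap]
  refine (List.sum_le_card_nsmul _ (P * T) ?_).trans ?_
  · intro l hl
    obtain ⟨j, _, rfl⟩ := List.mem_map.1 hl
    rw [List.length_map]
    unfold instL
    cases ((fwd P (candF (fun i => aug (r (bits i))) P T n))^[j] (ops, a0, [])).1.head? with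
    | none => simp
    | some o => rw [Option.elim_some, List.length_map, tests_length]
  · simp

theorem tbl_sz {r : List Bool → Out} {pl : Polynomial ℕ}
    (hpl : ∀ i : Ins, sz (r (bits i)) ≤ pl.eval (sz i)) {P T n : ℕ} {ops : List Op} {a0 : List ℕ}
    {B : ℕ} (hB : ∀ j < ops.length, ∀ i ∈ instL P T
      ((fwd P (candF (fun i => aug (r (bits i))) P T n))^[j] (ops, a0, [])), sz i ≤ B) :
    sz (tbl r P T n ops a0) ≤ ops.length * (P * T) * (B + pl.eval B + 2) + 1 := by
  have h1 := sz_list_le (tbl r P T n ops a0) (B + pl.eval B + 1) (by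
    intro e he
    obtain ⟨j, hj, hj'⟩ := List.mem_flatMap.1 he
    obtain ⟨i, hi, rfl⟩ := List.mem_map.1 hj'
    have h2 := hB j (List.mem_range.1 hj) i hi
    have h3 := (hpl i).trans (eval_mono pl h2)
    have h4 : sz (i, r (bits i)) = sz i + sz (r (bits i)) + 1 := sz_pair i (r (bits i))
    omega)
  refine h1.trans ?_
  have h2 := Nat.mul_le_mul_right (B + pl.eval B + 2) (tbl_length (r := r) (P := P) (T := T)
    (n := n) (ops := ops) (a0 := a0))
  have h3 : B + pl.eval B + 1 + 1 = B + pl.eval B + 2 := rfl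
  rw [h3]
  omega

/-! ### Polynomial time -/

section

variable {α : Type} [TEnc α]

theorem featT_poly : NPC.Poly (fun p : List (Ins × Out) × Ins => featT p.1 p.2) := by
  have h1 : NPC.Poly (fun p : List (Ins × Out) × Ins =>
      ((((p.1.filter (fun e : Ins × Out => decide (e.1 = p.2))).head?).map
        (fun e : Ins × Out => e.2)).getD [])) := by
    refine NPC.Poly.optGetD ?_ (NPC.Poly.const [])
    refine NPC.Poly.optMap_fp (h := fun _ (e : Ins × Out) => e.2) ?_
      (NPC.Poly.snd (NPC.Poly.snd NPC.Poly.id))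
    refine NPC.Poly.head? ?_
    refine NPC.Poly.filter (l := fun p : List (Ins × Out) × Ins => p.1)
      (p := fun p (e : Ins × Out) => decide (e.1 = p.2)) (NPC.Poly.fst NPC.Poly.id) ?_
    exact NPC.Poly.dec_eq (NPC.Poly.fst (NPC.Poly.snd NPC.Poly.id))
      (NPC.Poly.snd (NPC.Poly.fst NPC.Poly.id))
  exact aug_poly.comp h1

theorem instL_poly {P T : α → ℕ} {st : α → St} (hP : UPoly P) (hT : UPoly T)
    (hst : NPC.Poly st) : NPC.Poly (fun a => instL (P a) (T a) (st a)) := by
  have ht : NPC.Poly (fun a => tests (P a) (T a)) := tests_poly hP hT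
  have hP' := hP.toPoly
  have h1 : NPC.Poly (fun a => (st a).1) := NPC.Poly.fst hst
  have h2 : NPC.Poly (fun a => (st a).2.1) := NPC.Poly.fst (NPC.Poly.snd hst)
  refine NPC.Poly.optElim (o := fun a => (st a).1.head?) (g := fun _ => [])
    (h := fun a (o : Op) => (tests (P a) (T a)).map (fun t =>
      ((P a, (st a).1.tail, (st a).2.1.set o.2.1 t.1, t.2) : Ins)))
    (NPC.Poly.head? h1) (NPC.Poly.const []) ?_
  refine NPC.Poly.map (l := fun p : α × Op => tests (P p.1) (T p.1))
    (F := fun (p : α × Op) (t : ℕ × ℕ) =>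
      ((P p.1, (st p.1).1.tail, (st p.1).2.1.set p.2.2.1 t.1, t.2) : Ins))
    (ht.comp (NPC.Poly.fst NPC.Poly.id)) ?_
  have e1 : NPC.Poly (fun q : (α × Op) × (ℕ × ℕ) => q.1.1) :=
    NPC.Poly.fst (NPC.Poly.fst NPC.Poly.id)
  have e2 : NPC.Poly (fun q : (α × Op) × (ℕ × ℕ) => q.1.2.2.1) :=
    NPC.Poly.fst (NPC.Poly.snd (NPC.Poly.snd (NPC.Poly.fst NPC.Poly.id)))
  have e3 : NPC.Poly (fun q : (α × Op) × (ℕ × ℕ) => q.2.1) :=
    NPC.Poly.fst (NPC.Poly.snd NPC.Poly.id)
  have e4 : NPC.Poly (fun q : (α × Op) × (ℕ × ℕ) => q.2.2) :=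
    NPC.Poly.snd (NPC.Poly.snd NPC.Poly.id)
  exact NPC.Poly.pair (hP'.comp e1) (NPC.Poly.pair (NPC.Poly.tail (h1.comp e1))
    (NPC.Poly.pair (set_poly (h2.comp e1) e2 e3) e4))

theorem candT_poly {P T n : α → ℕ} (hP : UPoly P) (hT : UPoly T) (hn : UPoly n)
    {tb : α → List (Ins × Out)} (htb : NPC.Poly tb) :
    NPC.Poly (fun y : α × (List Op × List ℕ × ℕ) =>
      candF (featT (tb y.1)) (P y.1) (T y.1) (n y.1) y.2) :=
  candF_poly (α := α × (List Op × List ℕ × ℕ))
    (feat := fun y => featT (tb y.1.1) y.2)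
    (featT_poly.comp (f := fun y : (α × (List Op × List ℕ × ℕ)) × Ins => (tb y.1.1, y.2))
      (NPC.Poly.pair (htb.comp (NPC.Poly.fst (NPC.Poly.fst NPC.Poly.id)))
      (NPC.Poly.snd NPC.Poly.id)))
    (hP.comp (NPC.Poly.fst NPC.Poly.id)) (hT.comp (NPC.Poly.fst NPC.Poly.id))
    (hn.comp (NPC.Poly.fst NPC.Poly.id)) (NPC.Poly.snd NPC.Poly.id)

theorem tst_poly {P T n : α → ℕ} (hP : UPoly P) (hP0 : ∀ x, 0 < P x) (hT : UPoly T)
    (hn : UPoly n) {ops : α → List Op} {a0 : α → List ℕ} {tb : α → List (Ins × Out)}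
    (ho : NPC.Poly ops) (ha : NPC.Poly a0) (htb : NPC.Poly tb) :
    NPC.Poly (fun a => tst (P a) (T a) (n a) (ops a) (a0 a) (tb a)) := by
  have e1 : NPC.Poly (fun q : α × ℕ => q.1) := NPC.Poly.fst NPC.Poly.id
  have hlen : UPoly (fun a => (ops a).length) := UPoly.length ho
  refine NPC.Poly.and ?_ ?_
  · refine NPC.Poly.all (l := fun a => List.range (ops a).length)
      (p := fun a j => (instL (P a) (T a) ((fwd (P a) (candF (featT (tb a)) (P a) (T a)
        (n a)))^[min j (ops a).length] (ops a, a0 a, []))).all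
          (fun i => decide (i ∈ (tb a).map Prod.fst))) hlen.range ?_
    have hk : UPoly (fun q : α × ℕ => min q.2 (ops q.1).length) :=
      UPoly.of_le (NPC.Poly.min (NPC.Poly.snd NPC.Poly.id) (NPC.Poly.length (ho.comp e1)))
        (hlen.comp e1) (fun q => min_le_right _ _)
    have hPq : UPoly (fun q : α × ℕ => P q.1) := hP.comp e1
    have hTq : UPoly (fun q : α × ℕ => T q.1) := hT.comp e1
    have hnq : UPoly (fun q : α × ℕ => n q.1) := hn.comp e1
    have htq : NPC.Poly (fun q : α × ℕ => tb q.1) := htb.comp e1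
    have hoq : NPC.Poly (fun q : α × ℕ => ops q.1) := ho.comp e1
    have haq : NPC.Poly (fun q : α × ℕ => a0 q.1) := ha.comp e1
    have hcq := candT_poly (α := α × ℕ) (P := fun q => P q.1) (T := fun q => T q.1)
      (n := fun q => n q.1) (tb := fun q => tb q.1) hPq hTq hnq htq
    have hst := fwdIter_poly (α := α × ℕ) (P := fun q => P q.1)
      (k := fun q => min q.2 (ops q.1).length) hPq hk
      (cand := fun q => candF (featT (tb q.1)) (P q.1) (T q.1) (n q.1)) hcq
      (ops := fun q => ops q.1) (a0 := fun q => a0 q.1) hoq haq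
    have hi := instL_poly (α := α × ℕ) (P := fun q => P q.1) (T := fun q => T q.1)
      (st := fun q => (fwd (P q.1) (candF (featT (tb q.1)) (P q.1) (T q.1)
        (n q.1)))^[min q.2 (ops q.1).length] (ops q.1, a0 q.1, [])) hPq hTq hst
    refine NPC.Poly.all (l := fun q : α × ℕ => instL (P q.1) (T q.1)
      ((fwd (P q.1) (candF (featT (tb q.1)) (P q.1) (T q.1)
        (n q.1)))^[min q.2 (ops q.1).length] (ops q.1, a0 q.1, [])))
      (p := fun q i => decide (i ∈ (tb q.1).map Prod.fst)) hi ?_
    have h1 : NPC.Poly (fun y : (α × ℕ) × Ins => (tb y.1.1).map Prod.fst) :=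
      NPC.Poly.map (l := fun y : (α × ℕ) × Ins => tb y.1.1) (F := fun _ (e : Ins × Out) => e.1)
        (htb.comp (NPC.Poly.fst (NPC.Poly.fst NPC.Poly.id)))
        (NPC.Poly.fst (NPC.Poly.snd NPC.Poly.id))
    exact NPC.Poly.dec_mem (NPC.Poly.snd NPC.Poly.id) h1
  · exact NPC.Poly.decide_eq (solveG_poly hP hP0
      (cand := fun a => candF (featT (tb a)) (P a) (T a) (n a))
      (candT_poly (P := P) (T := T) (n := n) (tb := tb) hP hT hn htb) ho ha)
      (NPC.Poly.const 1)

end

theorem pairBits_inj {x w x' w' : List Bool} (h : pairBits x w = pairBits x' w') :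
    x = x' ∧ w = w' := by
  have h1 : unpair (pairBits x w) = unpair (pairBits x' w') := by rw [h]
  rw [unpair_pairBits, unpair_pairBits] at h1
  exact ⟨congrArg Prod.fst h1, congrArg Prod.snd h1⟩

/-- The graph of the reduction on instances is in `NP`. -/
theorem graph_inNPP {r : List Bool → Out}
    (hG : InNP {z | ∃ x, z = pairBits x (bits (r x))}) :
    InNPP (fun e : Ins × Out => e.2 = r (bits e.1)) := by
  have h1 := Med.inNPP_raw hG
  have h2 : NPC.Poly (fun e : Ins × Out => pairBits (bits e.1) (bits e.2)) :=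
    Med.poly_pairBits (Med.poly_bits.comp (NPC.Poly.fst NPC.Poly.id))
      (Med.poly_bits.comp (NPC.Poly.snd NPC.Poly.id))
  have h3 := Med.InNPP.comp h1 h2
  have h4 : (fun e : Ins × Out => pairBits (bits e.1) (bits e.2) ∈
      {z | ∃ x, z = pairBits x (bits (r x))}) = fun e : Ins × Out => e.2 = r (bits e.1) := by
    funext e
    rw [eq_iff_iff]
    constructor
    · rintro ⟨x, hx⟩
      obtain ⟨h5, h6⟩ := pairBits_inj hx
      rw [h5]
      exact bits_injective h6
    · intro h
      exact ⟨bits e.1, by rw [← h]⟩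
  rw [h4] at h3
  exact h3

/-- **Main theorem (nondeterministic version).** -/
theorem main2 {S : Set (List Bool)} (hS : ∀ L, InPSPACE L → ∃ d c, PolyBounded S d c ∧
    NThresholdReduces L S d c) : ∀ L, InPSPACE L → InNP L := by
  intro L hL
  obtain ⟨d, c, hB, r, ⟨⟨pl, hpl⟩, hG⟩, hrS⟩ := hS _ bp_inPSPACE
  obtain ⟨fq, hfq, hwf, hfq'⟩ := qbf_hard hL
  have hp2 : ∀ i : Ins, sz (r (bits i)) ≤ pl.eval (sz i) := fun i => by
    have h := hpl (bits i)
    rwa [bits_length, bits_length] at h
  obtain ⟨P, n, hP, hn, hP0, hcore⟩ := core hB hrS hp2 hfq hwf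
  have hT : UPoly (fun x => 2 ^ (P x).size) := two_pow_size_poly hP
  have hrep : NPC.Poly (fun x => List.replicate (fq x).1.length 0) :=
    poly_replicate (UPoly.length (NPC.Poly.fst hfq)) 0
  obtain ⟨pI, hpI⟩ := sizes hP hfq
  obtain ⟨qP, hqP⟩ := upoly_le hP
  obtain ⟨qT, hqT⟩ := upoly_le hT
  obtain ⟨po, hpo⟩ := (opsOf_poly hfq).sz_le
  refine Med.inNP_raw ?_
  -- the predicate on tables
  have hQ1 : InNPP (fun p : List Bool × List (Ins × Out) => ∀ e ∈ p.2, e.2 = r (bits e.1)) := by
    have h1 : InNPP (fun q : (List Bool × List (Ins × Out)) × (Ins × Out) =>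
        q.2.2 = r (bits q.2.1)) :=
      Med.InNPP.comp (Q := fun e : Ins × Out => e.2 = r (bits e.1)) (graph_inNPP hG)
        (f := fun q : (List Bool × List (Ins × Out)) × (Ins × Out) => q.2)
        (NPC.Poly.snd NPC.Poly.id)
    exact Med.InNPP.forall_mem (Q := fun q : (List Bool × List (Ins × Out)) × (Ins × Out) =>
        q.2.2 = r (bits q.2.1)) h1 (l := fun p : List Bool × List (Ins × Out) => p.2)
        (NPC.Poly.snd NPC.Poly.id)
  have e1 : NPC.Poly (fun p : List Bool × List (Ins × Out) => p.1) := NPC.Poly.fst NPC.Poly.id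
  have htst : NPC.Poly (fun p : List Bool × List (Ins × Out) =>
      tst (P p.1) (2 ^ (P p.1).size) (n p.1) (opsOf (fq p.1))
        (List.replicate (fq p.1).1.length 0) p.2) :=
    tst_poly (α := List Bool × List (Ins × Out)) (P := fun p => P p.1)
      (T := fun p => 2 ^ (P p.1).size) (n := fun p => n p.1) (ops := fun p => opsOf (fq p.1))
      (a0 := fun p => List.replicate (fq p.1).1.length 0) (tb := fun p => p.2)
      (hP.comp e1) (fun p => hP0 p.1) (hT.comp e1) (hn.comp e1) ((opsOf_poly hfq).comp e1)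
      (hrep.comp e1) (NPC.Poly.snd NPC.Poly.id)
  have hQ2 : InNPP (fun p : List Bool × List (Ins × Out) =>
      tst (P p.1) (2 ^ (P p.1).size) (n p.1) (opsOf (fq p.1))
        (List.replicate (fq p.1).1.length 0) p.2 = true) :=
    Med.inNPP_of_test htst fun _ => Iff.rfl
  have hQ := Med.InNPP.and hQ1 hQ2
  have hex := Med.InNPP.exists hQ
    (po * (qP * qT) * (pI + pl.comp pI + Polynomial.C 2) + Polynomial.C 1) (by
      rintro x tb ⟨h1, h2⟩
      have h3 := tst_sound h1 h2
      refine ⟨tbl r (P x) (2 ^ (P x).size) (n x) (opsOf (fq x))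
        (List.replicate (fq x).1.length 0), ?_, tbl_right, tst_complete tbl_right tbl_mem h3⟩
      have h4 := tbl_sz (r := r) hp2 (P := P x) (T := 2 ^ (P x).size) (n := n x)
        (ops := opsOf (fq x)) (a0 := List.replicate (fq x).1.length 0)
        (B := pI.eval (sz x)) (by
          intro j _ i hi
          obtain ⟨g1, g2, g3⟩ := fwd_inv (hP0 x)
            (candF (fun i => aug (r (bits i))) (P x) (2 ^ (P x).size) (n x)) (opsOf (fq x))
            (List.replicate (fq x).1.length 0) (by
              intro y hy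
              rw [List.eq_of_mem_replicate hy]
              exact hP0 x) j
          set st := (fwd (P x) (candF (fun i => aug (r (bits i))) (P x) (2 ^ (P x).size)
            (n x)))^[j] (opsOf (fq x), List.replicate (fq x).1.length 0, []) with hst
          unfold instL at hi
          cases ho : st.1.head? with
          | none => rw [ho] at hi; simp at hi
          | some o =>
            rw [ho, Option.elim_some] at hi
            obtain ⟨t, ht, rfl⟩ := List.mem_map.1 hi
            rw [mem_tests, Finset.mem_product, Finset.mem_range, Finset.mem_range] at ht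
            exact hpI x st.1.tail st.2.1 o.2.1 t.1 t.2 ((List.tail_suffix _).trans g1)
              (by rw [g2, List.length_replicate]) g3 ht.1 ht.2)
      refine h4.trans ?_
      have h5 : (opsOf (fq x)).length ≤ po.eval (sz x) := by
        have := length_lt_sz (opsOf (fq x))
        have := hpo x
        omega
      have h6 : P x * 2 ^ (P x).size ≤ qP.eval (sz x) * qT.eval (sz x) :=
        Nat.mul_le_mul (hqP x) (hqT x)
      have h7 := Nat.mul_le_mul (Nat.mul_le_mul h5 h6)
        (le_refl (pI.eval (sz x) + pl.eval (pI.eval (sz x)) + 2))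
      simp only [Polynomial.eval_add, Polynomial.eval_mul, Polynomial.eval_C,
        Polynomial.eval_comp]
      omega)
  have hfin : (fun x : List Bool => ∃ tb : List (Ins × Out),
      (∀ e ∈ tb, e.2 = r (bits e.1)) ∧ tst (P x) (2 ^ (P x).size) (n x) (opsOf (fq x))
        (List.replicate (fq x).1.length 0) tb = true) = fun x => x ∈ L := by
    funext x
    rw [eq_iff_iff, hfq' x, ← hcore x]
    constructor
    · rintro ⟨tb, h1, h2⟩
      exact tst_sound h1 h2
    · intro h
      exact ⟨_, tbl_right, tst_complete tbl_right tbl_mem h⟩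
  rw [← hfin]
  exact hex

end Pool.Agent.H573R2.PSp
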