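import Pool.Agent.H573R2.PSp.Defs

/-!
# Tasks (statements with `sorry`; each task is proved in its own module `P/<ID>.lean`)
-/

namespace Pool.Agent.H573R2.PSp.Stub

open Pool.Agent.NPC Pool.Agent.H579R2.Spt Pool.Agent.H656R2.AK Pool.Agent.H623R2.PS
open Finset

/-! ### ARI -/

theorem evF_opsOf (F : Type) [CommRing F] (f : QF) (hf : QFwf f) :
    evF (F := F) (opsOf f) (List.replicate f.1.length 0) =
      if evq f.1 (fun u => evc u f.2) = true then 1 else 0 := by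
  sorry

/-! ### DEG -/

theorem goodO_opsOf (F : Type) [CommRing F] (f : QF) : GoodO F f.1.length (opsOf f) := by
  sorry

/-! ### CST -/

theorem evN_cast {p : ℕ} (hp : 0 < p) (ops : List Op) (a : List ℕ) :
    ((evN p ops a : ℕ) : ZMod p) = evF ops (a.map (Nat.cast : ℕ → ZMod p)) := by
  sorry

theorem evN_lt {p : ℕ} (hp : 0 < p) (ops : List Op) (a : List ℕ) : evN p ops a < p := by
  sorry

/-! ### CF (may use CST) -/

theorem exists_cf {P : ℕ} (hP : P.Prime) {m v : ℕ} (s : List Op) (a : List ℕ)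
    (h : DegLe (F := ZMod P) m (evF s) v 3) (ha : a.length = m) :
    ∃ g ∈ all4 P, ∀ t < P, evG P g t = evN P s (a.set v t) := by
  sorry

/-! ### ORT -/

theorem collisions4 {P : ℕ} (hP : P.Prime) {g g' : Cf} (hg : g ∈ all4 P) (hg' : g' ∈ all4 P)
    (hne : g ≠ g') : ((range P).filter (fun t => evG P g t = evG P g' t)).card ≤ 3 := by
  sorry

theorem labG_orth {P k : ℕ} (hP : P.Prime) (hk : P ≤ 2 ^ k) {g g' : Cf} (hg : g ∈ all4 P)
    (hg' : g' ∈ all4 P) (hne : g ≠ g') :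
    |∑ t ∈ range P ×ˢ range (2 ^ k), sgn (labG P t g) * sgn (labG P t g')| ≤
      ((2 ^ k * 3 : ℕ) : ℤ) := by
  sorry

/-! ### CAN (may use ORT) -/

theorem candG_spec {Φ : Type} [DecidableEq Φ] {row : ℕ × ℕ → List (ℤ × Φ)} {P k : ℕ} {g : Cf}
    {z : Φ → ℤ} {R Z : ℤ} (hg : GoodRow row P (2 ^ k) g z R Z) (hP : P.Prime) (hk : P ≤ 2 ^ k)
    (hmem : g ∈ all4 P) (n : ℕ) (hn : R * Z < n) (hE : 2 * R * (n * R) * 3 ≤ P) :
    g ∈ candG row P (2 ^ k) n ∧ ((candG row P (2 ^ k) n).length : ℤ) ≤ 2 * R * (n * R) ∧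
      (candG row P (2 ^ k) n).Nodup ∧ ∀ g' ∈ candG row P (2 ^ k) n, g' ∈ all4 P := by
  sorry

/-! ### SEP (may use ORT) -/

theorem sepG_spec {P : ℕ} (hP : P.Prime) (l : List Cf) (hl : ∀ g ∈ l, g ∈ all4 P)
    (hlen : 3 * l.length * l.length < P) :
    sepG P l < P ∧ ∀ g ∈ l, ∀ g' ∈ l, evG P g (sepG P l) = evG P g' (sepG P l) → g = g' := by
  sorry

/-! ### ALG -/

theorem solveG_correct {P : ℕ} (hP : 2 ≤ P) {m : ℕ} (cand : List Op × List ℕ × ℕ → List Cf)
    (ops : List Op) (a0 : List ℕ) (ha0 : a0.length = m) (ha0' : ∀ x ∈ a0, x < P)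
    (hc : ∀ (o : Op) (s : List Op) (a : List ℕ), (o :: s) <:+ ops → a.length = m →
      (∀ x ∈ a, x < P) → o.1 < 3 → ∃ g ∈ cand (s, a, o.2.1),
        (∀ t < P, evG P g t = evN P s (a.set o.2.1 t)) ∧ sepG P (cand (s, a, o.2.1)) < P ∧
        ∀ g' ∈ cand (s, a, o.2.1), evG P g' (sepG P (cand (s, a, o.2.1))) =
          evG P g (sepG P (cand (s, a, o.2.1))) → g' = g) :
    solveG P cand ops a0 = evN P ops a0 := by
  sorry

/-! ### PSP -/

theorem bp_inPSPACE : InPSPACE (lang BP) := by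
  sorry

/-! ### POL1 -/

section Pol

variable {α β Φ : Type} [TEnc α] [TEnc β] [TEnc Φ] [DecidableEq Φ]

theorem set_poly {l : α → List β} {i : α → ℕ} {x : α → β} (hl : NPC.Poly l) (hi : NPC.Poly i)
    (hx : NPC.Poly x) : NPC.Poly (fun a => (l a).set (i a) (x a)) := by
  sorry

theorem evG_poly {p t : α → ℕ} {g : α → Cf} (hp : NPC.Poly p) (hg : NPC.Poly g)
    (ht : NPC.Poly t) : NPC.Poly (fun a => evG (p a) (g a) (t a)) := by
  sorry

theorem combN_poly {p k x y0 y1 : α → ℕ} (hp : NPC.Poly p) (hk : NPC.Poly k) (hx : NPC.Poly x)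
    (h0 : NPC.Poly y0) (h1 : NPC.Poly y1) :
    NPC.Poly (fun a => combN (p a) (k a) (x a) (y0 a) (y1 a)) := by
  sorry

theorem clN_poly {p : α → ℕ} {C : α → List (Bool × ℕ)} {a : α → List ℕ} (hp : NPC.Poly p)
    (hp0 : ∀ x, 0 < p x) (hC : NPC.Poly C) (ha : NPC.Poly a) :
    NPC.Poly (fun x => clN (p x) (C x) (a x)) := by
  sorry

theorem sepG_poly {P : α → ℕ} {l : α → List Cf} (hP : UPoly P) (hl : NPC.Poly l) :
    NPC.Poly (fun a => sepG (P a) (l a)) := by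
  sorry

theorem pickG_poly {P r v : α → ℕ} {l : α → List Cf} (hP : NPC.Poly P) (hl : NPC.Poly l)
    (hr : NPC.Poly r) (hv : NPC.Poly v) : NPC.Poly (fun a => pickG (P a) (l a) (r a) (v a)) := by
  sorry

/-! ### POL2 (may use POL1) -/

theorem candF_poly {feat : α × Ins → List (ℤ × Φ)} (hf : NPC.Poly feat) {P T n : α → ℕ}
    (hP : UPoly P) (hT : UPoly T) (hn : UPoly n) {q : α → List Op × List ℕ × ℕ}
    (hq : NPC.Poly q) :
    NPC.Poly (fun a => candF (fun i => feat (a, i)) (P a) (T a) (n a) (q a)) := by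
  sorry

/-! ### POL3 (may use POL1) -/

theorem fwdIter_poly {P k : α → ℕ} (hP : UPoly P) (hk : UPoly k)
    {cand : α → List Op × List ℕ × ℕ → List Cf}
    (hc : NPC.Poly (fun x : α × (List Op × List ℕ × ℕ) => cand x.1 x.2)) {ops : α → List Op}
    {a0 : α → List ℕ} (ho : NPC.Poly ops) (ha : NPC.Poly a0) :
    NPC.Poly (fun x => (fwd (P x) (cand x))^[k x] (ops x, a0 x, [])) := by
  sorry

theorem solveG_poly {P : α → ℕ} (hP : UPoly P) (hP0 : ∀ x, 0 < P x)
    {cand : α → List Op × List ℕ × ℕ → List Cf}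
    (hc : NPC.Poly (fun x : α × (List Op × List ℕ × ℕ) => cand x.1 x.2)) {ops : α → List Op}
    {a0 : α → List ℕ} (ho : NPC.Poly ops) (ha : NPC.Poly a0) :
    NPC.Poly (fun x => solveG (P x) (cand x) (ops x) (a0 x)) := by
  sorry

/-! ### OPS -/

theorem opsOf_poly {f : α → QF} (hf : NPC.Poly f) : NPC.Poly (fun x => opsOf (f x)) := by
  sorry

end Pol

/-- sizes of suffixes -/
theorem sz_suffix_le {α : Type} [TEnc α] {l l' : List α} (h : l <:+ l') : sz l ≤ sz l' := by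
  sorry

end Pool.Agent.H573R2.PSp.Stub
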