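import Pool.Agent.H573R2.PSp.Defs2

namespace Pool.Agent.H573R2.PSp.Stub

open Pool.Agent.NPC Pool.Agent.H579R2.Spt Pool.Agent.H623R2.PS

/-! ### CV1 -/

theorem polyBounded_empty : PolyBounded ∅ (fun _ => 1) (fun _ => 0) := by
  sorry

theorem sparse_empty : Sparse ∅ := by
  sorry

theorem thr_of_inP {L : Set (List Bool)} (h : InP L) :
    ThresholdReduces L ∅ (fun _ => 1) (fun _ => 0) := by
  sorry

/-! ### CV2 -/

theorem compl_inPSPACE {L : Set (List Bool)} (h : InPSPACE L) : InPSPACE Lᶜ := by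
  sorry

theorem nthr_of_inNP {L : Set (List Bool)} (h : InNP L) (h' : InNP Lᶜ) :
    NThresholdReduces L ∅ (fun _ => 1) (fun _ => 0) := by
  sorry

/-! ### PB: sparse sets, polynomial weight, constant width -/

theorem polyBounded_of_sparse {S : Set (List Bool)} (hS : Sparse S) (q : Polynomial ℕ) (c : ℕ) :
    PolyBounded S (fun n => q.eval n) (fun _ => c) := by
  sorry

end Pool.Agent.H573R2.PSp.Stub
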